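import Mathlib
import Pool.Agent.Helper23.IM.Path

/-!
# Piece GR: short generators of the group of a finite graph
-/

namespace IM

open FreeGroup

variable {A V : Type*} [MulAction (FreeGroup A) V]

/-- The edge and the sign of a letter determine the starting vertex. -/
theorem start_of_edge {v v' : V} {x x' : A × Bool} (he : edge v x = edge v' x')
    (hs : x.2 = x'.2) : v = v' := by
  rcases hx : x.2 with _ | _
  · have h1 := tgt_edge_false v x hx
    have h2 := tgt_edge_false v' x' (hs ▸ hx)
    rw [← h1, ← h2, he]
  · have h1 := edge_snd_true v x hx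
    have h2 := edge_snd_true v' x' (hs ▸ hx)
    rw [← h1, ← h2, he]

theorem edge_mem_of_isPath {E : Set (A × V)} {v : V} {u : List (A × Bool)} (hu : IsPath E v u)
    (i : ℕ) (hi : i < u.length) : edge (endp v (u.take i)) u[i] ∈ E := by
  induction u generalizing v i with
  | nil => simp at hi
  | cons x u ih =>
    cases i with
    | zero => simpa using hu.1
    | succ i =>
      have := ih hu.2 i (by simpa using hi)
      simpa using this

/-- A long path can be shortened. -/
theorem exists_short_path (E : Finset (A × V)) (v₀ : V) (u : List (A × Bool))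
    (hu : IsPath (E : Set (A × V)) v₀ u) :
    ∃ u' : List (A × Bool), IsPath (E : Set (A × V)) v₀ u' ∧ endp v₀ u' = endp v₀ u ∧
      u'.length ≤ 2 * E.card := by
  classical
  induction hn : u.length using Nat.strong_induction_on generalizing u with
  | _ n ih =>
    by_cases hlen : u.length ≤ 2 * E.card
    · exact ⟨u, hu, rfl, hlen⟩
    · push Not at hlen
      -- pigeonhole
      let f : Fin u.length → (A × V) × Bool :=
        fun i => (edge (endp v₀ (u.take i)) u[i], (u[i]).2)
      have hf : ∀ i ∈ (Finset.univ : Finset (Fin u.length)),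
          f i ∈ E ×ˢ (Finset.univ : Finset Bool) := by
        intro i _
        have := edge_mem_of_isPath hu i.1 i.2
        simp only [Finset.mem_product, Finset.mem_univ, and_true]
        exact this
      have hcard : (E ×ˢ (Finset.univ : Finset Bool)).card <
          (Finset.univ : Finset (Fin u.length)).card := by
        rw [Finset.card_product, Finset.card_univ, Finset.card_univ, Fintype.card_bool,
          Fintype.card_fin]
        omega
      obtain ⟨i, -, j, -, hij, hfij⟩ := Finset.exists_ne_map_eq_of_card_lt_of_maps_to hcard hf
      -- wlog i < j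
      have key : ∀ i j : Fin u.length, i < j → f i = f j →
          ∃ u' : List (A × Bool), IsPath (E : Set (A × V)) v₀ u' ∧ endp v₀ u' = endp v₀ u ∧
            u'.length ≤ 2 * E.card := by
        intro i j hij hfij
        have he : edge (endp v₀ (u.take i)) u[i] = edge (endp v₀ (u.take j)) u[j] :=
          congrArg Prod.fst hfij
        have hs : (u[i]).2 = (u[j]).2 := congrArg (fun z : (A × V) × Bool => z.2) hfij
        have hv : endp v₀ (u.take i) = endp v₀ (u.take j) := start_of_edge he hs
        have hsplit_i : u.take i ++ u.drop i = u := List.take_append_drop i u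
        have hsplit_j : u.take j ++ u.drop j = u := List.take_append_drop j u
        have hpi : IsPath (E : Set (A × V)) v₀ (u.take i ++ u.drop i) := by rwa [hsplit_i]
        have hpj : IsPath (E : Set (A × V)) v₀ (u.take j ++ u.drop j) := by rwa [hsplit_j]
        rw [isPath_append] at hpi hpj
        have hpath : IsPath (E : Set (A × V)) v₀ (u.take i ++ u.drop j) := by
          rw [isPath_append]
          exact ⟨hpi.1, by rw [hv]; exact hpj.2⟩
        have hend : endp v₀ (u.take i ++ u.drop j) = endp v₀ u := by
          conv_rhs => rw [← hsplit_j]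
          rw [endp_append, endp_append, hv]
        have hl : (u.take i ++ u.drop j).length < n := by
          have h1 := i.2
          have h2 := j.2
          have h3 : (i : ℕ) < j := hij
          simp only [List.length_append, List.length_take, List.length_drop]
          omega
        obtain ⟨u', h1, h2, h3⟩ := ih _ hl _ hpath rfl
        exact ⟨u', h1, h2.trans hend, h3⟩
      rcases lt_or_gt_of_ne hij with h | h
      · exact key i j h hfij
      · exact key j i h hfij.symm

theorem short_generators {A V : Type*} [MulAction (FreeGroup A) V] (E : Finset (A × V)) (v₀ : V)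
    (u : List (A × Bool)) (hu : IsPath (E : Set (A × V)) v₀ u) :
    ∃ u' : List (A × Bool), IsPath (E : Set (A × V)) v₀ u' ∧ endp v₀ u' = endp v₀ u ∧
      u'.length ≤ 2 * E.card ∧
      FreeGroup.mk u * (FreeGroup.mk u')⁻¹ ∈ Subgroup.closure
        {g | ∃ w : List (A × Bool), FreeGroup.mk w = g ∧ IsPath (E : Set (A × V)) v₀ w ∧
          endp v₀ w = v₀ ∧ w.length ≤ 4 * E.card + 1} := by
  induction u using List.reverseRecOn with
  | nil =>
    refine ⟨[], trivial, rfl, by simp, ?_⟩
    rw [mul_inv_cancel]
    exact Subgroup.one_mem _
  | append_singleton u₀ x ih =>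
    have hu' := (isPath_append _ _ _ _).1 hu
    obtain ⟨u₀', hp0, he0, hl0, hm0⟩ := ih hu'.1
    obtain ⟨u', hp, he, hl⟩ := exists_short_path E v₀ (u₀ ++ [x]) hu
    refine ⟨u', hp, he, hl, ?_⟩
    have hcl : FreeGroup.mk (u₀ ++ [x]) * (FreeGroup.mk u')⁻¹ =
        (FreeGroup.mk u₀ * (FreeGroup.mk u₀')⁻¹) *
          FreeGroup.mk (u₀' ++ [x] ++ FreeGroup.invRev u') := by
      rw [← FreeGroup.mul_mk, ← FreeGroup.mul_mk, ← FreeGroup.mul_mk, ← FreeGroup.inv_mk]
      group
    rw [hcl]
    refine Subgroup.mul_mem _ hm0 (Subgroup.subset_closure ⟨_, rfl, ?_, ?_, ?_⟩)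
    · rw [isPath_append, isPath_append]
      refine ⟨⟨hp0, ?_⟩, ?_⟩
      · rw [he0]; exact hu'.2
      · have : endp v₀ (u₀' ++ [x]) = endp v₀ u' := by
          rw [endp_append, he0, ← endp_append, he]
        rw [this]
        exact hp.invRev
    · have : endp v₀ (u₀' ++ [x]) = endp v₀ u' := by
        rw [endp_append, he0, ← endp_append, he]
      rw [endp_append, this, endp_invRev]
    · simp only [List.length_append, List.length_singleton, FreeGroup.invRev_length]
      omega

end IM
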